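import Mathlib
import Pool.Agent.N251.GA.Leaves

/-!
# The forward directions (project GA, helper251; proof by helper491)
-/

set_option autoImplicit false

namespace Pool.Agent.N491.GA

open Pool.Agent.N251.GA

theorem t1 : LeafFwdOne := by
  intro R _ D p q N hp hq hL
  have := isDomain D
  refine transfer D 1 (1 / (p : ℝ) + 1 / (q : ℝ)) 1 le_rfl one_pos (by push_cast; linarith)
    ?_ ?_ ?_ ?_ hL
  · intro s _ i
    exact le_max_of_le_left (by positivity)
  · rintro ⟨x, y⟩ ⟨hxy, hne, -⟩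
    simp only at hxy hne
    by_cases hx : x = 0
    · have hy : IsUnit y := by rw [hx] at hxy; exact isCoprime_zero_left.1 hxy
      have hy0 : y ≠ 0 := hy.ne_zero
      refine le_norm_prod D (pow_ne_zero q hy0) fun i => ?_
      rw [map_pow, norm_pow]
      exact le_max_right _ _
    · refine le_norm_prod D (pow_ne_zero p hx) fun i => ?_
      rw [map_pow, norm_pow]
      exact le_max_left _ _
  · rintro ⟨x, y⟩ ⟨-, hne, -⟩
    exact sub_ne_zero.2 hne
  · rintro ⟨x, y⟩ ⟨hxy, hne, -⟩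
    simp only at hxy hne
    by_cases hx : x = 0
    · left
      have hy : IsUnit (y ^ q) := by rw [hx] at hxy; exact (isCoprime_zero_left.1 hxy).pow q
      have h1 : ∀ i, max (‖D.σ i x‖ ^ p) (‖D.σ i y‖ ^ q) = ‖D.σ i (y ^ q)‖ := by
        intro i
        rw [hx, map_zero, norm_zero, zero_pow (by omega), max_eq_right (by positivity), map_pow,
          norm_pow]
      simp only [h1]
      rw [norm_unit D hy]
    by_cases hy : y = 0
    · left
      have hxu : IsUnit (x ^ p) := by rw [hy] at hxy; exact (isCoprime_zero_right.1 hxy).pow p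
      have h1 : ∀ i, max (‖D.σ i x‖ ^ p) (‖D.σ i y‖ ^ q) = ‖D.σ i (x ^ p)‖ := by
        intro i
        rw [hy, map_zero, norm_zero, zero_pow (by omega), max_eq_left (by positivity), map_pow,
          norm_pow]
      simp only [h1]
      rw [norm_unit D hxu]
    right
    have hF0 : x ^ p - y ^ q ≠ 0 := sub_ne_zero.2 hne
    refine ⟨(x ^ p, -y ^ q, y ^ q - x ^ p), ⟨⟨?_, ?_, pow_ne_zero _ hx,
      neg_ne_zero.2 (pow_ne_zero _ hy), sub_ne_zero.2 hne.symm⟩, trivial⟩, ?_, x * y,
      mul_ne_zero hx hy, mul_ne_zero hF0 (mul_ne_zero hx hy), ?_, p + q, ?_⟩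
    · exact (hxy.pow (m := p) (n := q)).neg_right
    · simp only; ring
    · intro i
      rw [pow_one, one_mul]
      apply max_le
      · refine le_trans (le_of_eq ?_) (ht_ge1 D _ i)
        simp only [map_pow, norm_pow]
      · refine le_trans (le_of_eq ?_) (ht_ge2 D _ i)
        simp only [map_neg, norm_neg, map_pow, norm_pow]
    · intro i
      rw [one_mul]
      obtain ⟨M, hM⟩ : ∃ M, M = max (‖D.σ i x‖ ^ p) (‖D.σ i y‖ ^ q) := ⟨_, rfl⟩
      simp only
      rw [← hM]
      have hMx : ‖D.σ i x‖ ^ p ≤ M := by rw [hM]; exact le_max_left _ _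
      have hMy : ‖D.σ i y‖ ^ q ≤ M := by rw [hM]; exact le_max_right _ _
      have hx1 : 0 < ‖D.σ i x‖ := norm_pos_iff.2 (sigma_ne_zero D hx i)
      have hM0 : 0 < M := lt_of_lt_of_le (by positivity) hMx
      have h1 : ‖D.σ i x‖ ≤ M ^ (1 / (p : ℝ)) := by
        have h2 := Real.pow_rpow_inv_natCast (norm_nonneg (D.σ i x)) (show p ≠ 0 by omega)
        rw [← h2, one_div]
        exact Real.rpow_le_rpow (by positivity) hMx (by positivity)
      have h2 : ‖D.σ i y‖ ≤ M ^ (1 / (q : ℝ)) := by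
        have h2 := Real.pow_rpow_inv_natCast (norm_nonneg (D.σ i y)) (show q ≠ 0 by omega)
        rw [← h2, one_div]
        exact Real.rpow_le_rpow (by positivity) hMy (by positivity)
      rw [map_mul, norm_mul, Real.rpow_add hM0]
      exact mul_le_mul h1 h2 (norm_nonneg _) (by positivity)
    · simp only
      obtain ⟨k, hk⟩ : ∃ k, p + q = k + 1 := ⟨p + q - 1, by omega⟩
      refine ⟨(x ^ p - y ^ q) ^ k * x ^ q * y ^ p, ?_⟩
      rw [mul_pow, mul_pow, pow_add x, pow_add y, hk, pow_succ]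
      ring

theorem t2 : LeafFwdTwo := by
  intro R _ D n N hn hL
  have := isDomain D
  have hn0 : (0 : ℝ) < n := by exact_mod_cast hn
  refine transfer D 1 (1 / (n : ℝ)) 2 one_le_two one_pos (by push_cast; linarith)
    ?_ ?_ ?_ ?_ hL
  · intro s _ i
    exact le_max_of_le_left (norm_nonneg _)
  · rintro ⟨u, v, x⟩ ⟨-, hu, -, -, -⟩
    exact le_norm_prod D hu fun i => le_max_left _ _
  · rintro ⟨u, v, x⟩ ⟨-, hu, hv, -, -⟩
    exact mul_ne_zero hu hv
  · rintro ⟨u, v, x⟩ ⟨huv, hu, hv, hsum, -⟩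
    simp only at huv hu hv hsum
    by_cases hx : x = 0
    · left
      have hv' : v = -u := by
        rw [hx, zero_pow (by omega)] at hsum
        linear_combination hsum
      have huu : IsUnit u := by
        rw [hv', IsCoprime.neg_right_iff] at huv
        exact isCoprime_self.1 huv
      have h1 : ∀ i, max ‖D.σ i u‖ ‖D.σ i v‖ = ‖D.σ i u‖ := by
        intro i
        rw [hv', map_neg, norm_neg, max_self]
      simp only [h1]
      rw [norm_unit D huu]
      norm_num
    right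
    refine ⟨(u, v, -x ^ n), ⟨⟨huv, ?_, hu, hv, neg_ne_zero.2 (pow_ne_zero _ hx)⟩, trivial⟩, ?_, x,
      hx, mul_ne_zero (mul_ne_zero hu hv) hx, ?_, n, ?_⟩
    · simp only; rw [hsum]; ring
    · intro i
      rw [pow_one]
      have h1 : max ‖D.σ i u‖ ‖D.σ i v‖ ≤ ht D (u, v, -x ^ n) i :=
        max_le (ht_ge1 D (u, v, -x ^ n) i) (ht_ge2 D (u, v, -x ^ n) i)
      have h2 := ht_nonneg D (u, v, -x ^ n) i
      simp only
      linarith
    · intro i
      obtain ⟨M, hM⟩ : ∃ M, M = max ‖D.σ i u‖ ‖D.σ i v‖ := ⟨_, rfl⟩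
      simp only
      rw [← hM]
      have hMu : ‖D.σ i u‖ ≤ M := by rw [hM]; exact le_max_left _ _
      have hMv : ‖D.σ i v‖ ≤ M := by rw [hM]; exact le_max_right _ _
      have hM0 : 0 ≤ M := (norm_nonneg _).trans hMu
      have h1 : ‖D.σ i x‖ ^ n ≤ 2 * M := by
        rw [← norm_pow, ← map_pow, ← hsum, map_add]
        exact (norm_add_le _ _).trans (by linarith)
      have h2 := Real.pow_rpow_inv_natCast (norm_nonneg (D.σ i x)) (show n ≠ 0 by omega)
      have h3 : (2 : ℝ) ^ ((n : ℝ)⁻¹) ≤ 2 := by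
        calc (2 : ℝ) ^ ((n : ℝ)⁻¹) ≤ 2 ^ (1 : ℝ) := by
              apply Real.rpow_le_rpow_of_exponent_le (by norm_num)
              exact inv_le_one_of_one_le₀ (by exact_mod_cast hn)
          _ = 2 := Real.rpow_one 2
      calc ‖D.σ i x‖ = (‖D.σ i x‖ ^ n) ^ ((n : ℝ)⁻¹) := h2.symm
        _ ≤ (2 * M) ^ ((n : ℝ)⁻¹) := Real.rpow_le_rpow (by positivity) h1 (by positivity)
        _ = 2 ^ ((n : ℝ)⁻¹) * M ^ ((n : ℝ)⁻¹) := Real.mul_rpow (by norm_num) hM0
        _ ≤ 2 * M ^ ((n : ℝ)⁻¹) := mul_le_mul_of_nonneg_right h3 (by positivity)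
        _ = _ := by rw [one_div]
    · simp only
      obtain ⟨k, hk⟩ : ∃ k, n = k + 1 := ⟨n - 1, by omega⟩
      refine ⟨-(u * v) ^ k, ?_⟩
      rw [mul_pow (u * v), hk]
      ring

end Pool.Agent.N491.GA
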