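import Mathlib
import Pool.Agent.N251.GA.Leaves

/-!
# `OneCusp (p m) (q m) → OneCusp p q` (project GA, helper251; proof by helper491)
-/

set_option autoImplicit false

namespace Pool.Agent.N491.GA

open Pool.Agent.N251.GA

theorem t : LeafMul := by
  intro R _ D m p q N hm hp hq hpq hL
  have := isDomain D
  have hm0 : (0 : ℝ) < m := by exact_mod_cast hm
  have hp0 : (0 : ℝ) < p := by exact_mod_cast (show 0 < p by omega)
  have hq0 : (0 : ℝ) < q := by exact_mod_cast (show 0 < q by omega)
  have hinv : 1 / (p : ℝ) + 1 / (q : ℝ) < 1 := by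
    rw [div_add_div _ _ hp0.ne' hq0.ne', div_lt_one (by positivity)]
    have h1 : p + q < p * q := by
      rcases Nat.lt_or_ge p 3 with h | h
      · have : p = 2 := by omega
        subst this
        omega
      · nlinarith
    have h2 : ((p + q : ℕ) : ℝ) < ((p * q : ℕ) : ℝ) := by exact_mod_cast h1
    push_cast at h2
    linarith
  have hdiv : ∀ a : ℝ, 0 < a → 1 / (a * m) = 1 / a / m := by
    intro a _
    rw [div_div]
  have hθ' : 0 < 1 - 1 / ((p * m : ℕ) : ℝ) - 1 / ((q * m : ℕ) : ℝ) := by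
    push_cast
    rw [hdiv _ hp0, hdiv _ hq0]
    have hm1 : (1 : ℝ) ≤ m := by exact_mod_cast hm
    have h1 : 1 / (p : ℝ) / m ≤ 1 / p := div_le_self (by positivity) hm1
    have h2 : 1 / (q : ℝ) / m ≤ 1 / q := div_le_self (by positivity) hm1
    linarith
  have hK : (1 : ℝ) ≤ m := by exact_mod_cast hm
  refine transfer D m (((m - 1 : ℕ) : ℕ) : ℝ) (m : ℝ) hK hθ' ?_ ?_ ?_ ?_ ?_ hL
  · -- exponents
    rw [Nat.cast_sub hm]
    push_cast
    have h1 : (1 : ℝ) / (p * m) * m = 1 / p := by field_simp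
    have h2 : (1 : ℝ) / (q * m) * m = 1 / q := by field_simp
    have h3 : (1 - 1 / ((p : ℝ) * m) - 1 / ((q : ℝ) * m)) * m = m - 1 / p - 1 / q := by
      rw [sub_mul, sub_mul, h1, h2, one_mul]
    rw [h3]
    linarith
  · intro s _ i
    exact le_max_of_le_left (by positivity)
  · rintro ⟨x, y⟩ ⟨hxy, hne, -⟩
    simp only at hxy hne
    by_cases hx : x = 0
    · have hy : IsUnit y := by rw [hx] at hxy; exact isCoprime_zero_left.1 hxy
      have hy0 : y ≠ 0 := hy.ne_zero
      refine le_norm_prod D (pow_ne_zero q hy0) fun i => ?_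
      rw [map_pow, norm_pow]
      exact le_max_right _ _
    · refine le_norm_prod D (pow_ne_zero p hx) fun i => ?_
      rw [map_pow, norm_pow]
      exact le_max_left _ _
  · rintro ⟨x, y⟩ ⟨-, hne, -⟩
    exact sub_ne_zero.2 hne
  · rintro ⟨x, y⟩ ⟨hxy, hne, hN⟩
    simp only at hxy hne hN
    have hF0 : x ^ p - y ^ q ≠ 0 := sub_ne_zero.2 hne
    obtain ⟨w, hw⟩ : ∃ w : R, w = ∑ i ∈ Finset.range m, (x ^ p) ^ i * (y ^ q) ^ (m - 1 - i) :=
      ⟨_, rfl⟩
    have hwF : w * (x ^ p - y ^ q) = x ^ (p * m) - y ^ (q * m) := by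
      have := (Commute.all (x ^ p) (y ^ q)).geom_sum₂_mul m
      rw [hw, this, pow_mul, pow_mul]
    by_cases hexc : x ^ (p * m) = y ^ (q * m)
    · left
      have hpm : 0 < p * m := Nat.mul_pos (by omega) hm
      have h1 : IsUnit (x ^ (p * m)) := by
        have := hxy.pow (m := p * m) (n := q * m)
        rw [← hexc] at this
        exact isCoprime_self.1 this
      have hxu : IsUnit (x ^ p) := by
        rw [pow_mul] at h1
        exact (isUnit_pow_iff (by omega)).1 h1
      have h3 : ∀ i, max (‖D.σ i x‖ ^ p) (‖D.σ i y‖ ^ q) = ‖D.σ i (x ^ p)‖ := by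
        intro i
        have h4 : (‖D.σ i x‖ ^ p) ^ m = (‖D.σ i y‖ ^ q) ^ m := by
          rw [← pow_mul, ← pow_mul, ← norm_pow, ← norm_pow, ← map_pow, ← map_pow, hexc]
        have h5 : ‖D.σ i x‖ ^ p = ‖D.σ i y‖ ^ q :=
          (pow_left_inj₀ (by positivity) (by positivity) (by omega)).1 h4
        rw [← h5, max_self, map_pow, norm_pow]
      simp only [h3]
      rw [norm_unit D hxu]
      exact hK
    · right
      have hF'0 : x ^ (p * m) - y ^ (q * m) ≠ 0 := sub_ne_zero.2 hexc
      have hw0 : w ≠ 0 := by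
        intro h0
        rw [h0, zero_mul] at hwF
        exact hF'0 hwF.symm
      refine ⟨(x, y), ⟨hxy, hexc, ?_⟩, ?_, w, hw0, mul_ne_zero hF0 hw0, ?_, 1, ?_⟩
      · simp only
        rw [← hwF]
        exact Dvd.dvd.mul_left hN w
      · intro i
        simp only
        have h1 : max (‖D.σ i x‖ ^ p) (‖D.σ i y‖ ^ q) ^ m =
            max (‖D.σ i x‖ ^ (p * m)) (‖D.σ i y‖ ^ (q * m)) := by
          rw [pow_mul, pow_mul]
          rcases le_total (‖D.σ i x‖ ^ p) (‖D.σ i y‖ ^ q) with h | h
          · rw [max_eq_right h, max_eq_right (pow_le_pow_left₀ (by positivity) h m)]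
          · rw [max_eq_left h, max_eq_left (pow_le_pow_left₀ (by positivity) h m)]
        rw [h1]
        have h2 : 0 ≤ max (‖D.σ i x‖ ^ (p * m)) (‖D.σ i y‖ ^ (q * m)) :=
          le_max_of_le_left (by positivity)
        nlinarith
      · intro i
        simp only
        rw [Real.rpow_natCast]
        obtain ⟨M, hM⟩ : ∃ M, M = max (‖D.σ i x‖ ^ p) (‖D.σ i y‖ ^ q) := ⟨_, rfl⟩
        rw [← hM]
        have hMx : ‖D.σ i x‖ ^ p ≤ M := by rw [hM]; exact le_max_left _ _
        have hMy : ‖D.σ i y‖ ^ q ≤ M := by rw [hM]; exact le_max_right _ _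
        have hM0 : 0 ≤ M := le_trans (by positivity) hMx
        calc ‖D.σ i w‖ ≤ ∑ j ∈ Finset.range m,
              (‖D.σ i x‖ ^ p) ^ j * (‖D.σ i y‖ ^ q) ^ (m - 1 - j) := by
              rw [hw, map_sum]
              refine (norm_sum_le _ _).trans (le_of_eq ?_)
              apply Finset.sum_congr rfl
              intro j _
              rw [map_mul, map_pow, map_pow, map_pow, map_pow, norm_mul, norm_pow, norm_pow,
                norm_pow, norm_pow]
          _ ≤ ∑ j ∈ Finset.range m, M ^ (m - 1) := by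
              apply Finset.sum_le_sum
              intro j hj
              rw [Finset.mem_range] at hj
              calc (‖D.σ i x‖ ^ p) ^ j * (‖D.σ i y‖ ^ q) ^ (m - 1 - j)
                  ≤ M ^ j * M ^ (m - 1 - j) := by gcongr
                _ = _ := by rw [← pow_add]; congr 1; omega
          _ = m * M ^ (m - 1) := by
              rw [Finset.sum_const, Finset.card_range, nsmul_eq_mul]
      · simp only
        rw [pow_one, ← hwF, mul_comm]

end Pool.Agent.N491.GA
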